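import Pool.Agent.Run7.h914.MatRec

set_option autoImplicit false

/-!
# Record prime gaps at all entries of the matrices of given determinant modulo primes

Write `f(x) = log x (log₂ x)² log₄ x / (log₃ x)²` for the record size of the prime-free intervals.

(1) Let `n ≥ 3`, let `p` be a large prime and `d` a nonzero residue (for `d = 1` these are the integer
representatives of the elements of `SL_n` over the field with `p` elements).  In every box of `n × n` matrices
(the entry `Z_ij` in the interval `(M_ij, M_ij + L_ij]`) with sides between `p ^ δ` and `p` and of volume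
`V ≥ p ^ (n² - n + δ)` at least `p ^ (-δ) V / p` integer matrices `Z` have determinant `≡ d (mod p)` and are such
that every integer within `κ f(p)` of the monomial `∏ Z_ij ^ (e_ij)` has a prime factor `≤ p ^ δ`, for all coprime
systems of exponents `e_ij ≤ E`.  So all the entries, the products of different entries, ... are in the middle
of prime-free intervals of record length.  For boxes with equal sides the entries can be chosen in any
interval of length `p ^ (1 - 1 / n + δ)`.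

(2) The same for the singular matrices (`det Z ≡ 0`), `n ≥ 2`, in the boxes of volume `V ≥ p ^ (n² - n + 1 + δ)`.

In each case about `V / p` integer matrices of the box have the given determinant.  (For `2 × 2` matrices and
`d ≠ 0` see the theorem on quadrics, `MP_69be96_nt.Quadrics`.)

Proof.  For the Fourier coefficient of the matrices of determinant `d` at the matrix `A ≠ 0` we may suppose that `A`
is diagonal (transvections), with first entry `≠ 0`.  The sum over the first column vanishes unless the vector of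
its cofactors is a multiple of the first unit vector; so the coefficient for `n` is `p ^ (n - 1)` times a sum over
the nonsingular matrices of size `n - 1`, twisted by a function of the determinant.  If the rest of `A` is zero this
is `- 1 / (p - 1)` times their number, otherwise we use the trivial bound for size `n - 1`.  Thus the coefficient is
`≤ 2 p ^ (n² - 1 - n)`, and `≤ p ^ (n² - n)` for `d = 0`.  Then the joint covering sieve of the starting library
`N39.RG`.
-/

namespace Pool.Agent.Results.MP_028722_nt.MatricesOfGivenDeterminant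

/-- The record scale `f(x) = log x (log₂ x)² log₄ x / (log₃ x)²` (iterated natural logarithms). -/
noncomputable def f (x : ℝ) : ℝ :=
  Real.log x * (Real.log (Real.log x)) ^ 2 * Real.log (Real.log (Real.log (Real.log x))) /
    (Real.log (Real.log (Real.log x))) ^ 2

/-- Every integer within `κ f(p)` of `n` has a prime factor at most `p ^ δ`. -/
def Centre (κ δ : ℝ) (p : ℕ) (n : ℤ) : Prop :=
  ∀ m : ℤ, |(m : ℝ) - n| ≤ κ * f p → ∃ l : ℕ, l.Prime ∧ (l : ℝ) ≤ (p : ℝ) ^ δ ∧ (l : ℤ) ∣ m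

/-- The matrix `Z` is in the box, and all its monomials with coprime exponents `≤ E` are centres. -/
def GoodMatrix {n : ℕ} (E : ℕ) (κ δ : ℝ) (p : ℕ) (M : Fin n → Fin n → ℤ) (L : Fin n → Fin n → ℕ)
    (Z : Matrix (Fin n) (Fin n) ℤ) : Prop :=
  (∀ i j, M i j < Z i j ∧ Z i j ≤ M i j + L i j) ∧
    ∀ e : Fin n → Fin n → ℕ, (∀ i j, e i j ≤ E) → Finset.univ.gcd (fun q : Fin n × Fin n => e q.1 q.2) = 1 →
      Centre κ δ p (∏ i, ∏ j, Z i j ^ e i j)

theorem transfer {n : ℕ} (E : ℕ) (κ δ : ℝ) (p : ℕ) [Fact p.Prime] (M : Fin n → Fin n → ℤ) (L : Fin n → Fin n → ℕ)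
    (d : ZMod p) (x : ℝ)
    (h : x ≤ (Set.ncard {z : Fin n × Fin n → ℤ | (∀ q, M q.1 q.2 < z q ∧ z q ≤ M q.1 q.2 + L q.1 q.2) ∧
        (Matrix.of (fun i j => (z (i, j) : ZMod p))).det = d ∧ Run7.h914.GoodI E κ δ p z} : ℝ)) :
    x ≤ (Set.ncard {Z : Matrix (Fin n) (Fin n) ℤ | GoodMatrix E κ δ p M L Z ∧ ((Z.det : ℤ) : ZMod p) = d} : ℝ) := by
  refine h.trans ?_
  rw [Nat.cast_le]
  have hinj : Function.Injective (fun z : Fin n × Fin n → ℤ => (Matrix.of (fun i j => z (i, j)) :
      Matrix (Fin n) (Fin n) ℤ)) := by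
    intro z z' hz
    funext q
    exact congrFun (congrFun hz q.1) q.2
  rw [← Set.ncard_image_of_injective _ hinj]
  refine Set.ncard_le_ncard ?_ ?_
  · rintro Z ⟨z, ⟨h1, h2, h3⟩, rfl⟩
    refine ⟨⟨fun i j => h1 (i, j), fun e he hg m hm => ?_⟩, ?_⟩
    · refine h3 (fun q => e q.1 q.2) (fun q => he q.1 q.2) hg m ?_
      push_cast at hm
      rw [Fintype.prod_prod_type]
      exact hm
    · rw [Int.cast_det]
      exact h2
  · refine (Set.Finite.pi' (fun i => Set.Finite.pi' (fun j => Set.finite_Ioc (M i j) (M i j + L i j)))).subset ?_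
    intro Z hZ i j
    exact hZ.1.1 i j

theorem vol {p n : ℕ} (hp : 0 < p) (L : Fin n → Fin n → ℕ) :
    (p : ℝ) ^ ((n : ℝ) ^ 2 - 1) * ∏ q : Fin n × Fin n, ((L q.1 q.2 : ℝ) / p) = (∏ i, ∏ j, (L i j : ℝ)) / p := by
  have hp0 : (0 : ℝ) < p := by exact_mod_cast hp
  rw [Finset.prod_div_distrib, Finset.prod_const, Finset.card_univ, Fintype.card_prod, Fintype.card_fin,
    Fintype.prod_prod_type, Real.rpow_sub hp0, Real.rpow_one]
  have h : (p : ℝ) ^ ((n : ℝ) ^ 2) = (p : ℝ) ^ (n * n) := by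
    apply Run7.h914.pow_as_rpow
    push_cast
    ring
  rw [h]
  have : (p : ℝ) ^ (n * n) ≠ 0 := by positivity
  field_simp

/-- **Record prime gaps at all entries of the matrices of given determinant modulo primes.** -/
theorem result (n E : ℕ) (δ : ℝ) (hδ : 0 < δ) (hδ1 : δ ≤ 1) :
    (3 ≤ n → ∃ κ : ℝ, 0 < κ ∧ ∃ p₀ : ℕ, ∀ (p : ℕ) [Fact p.Prime], p₀ ≤ p → ∀ d : ZMod p, d ≠ 0 →
      ∀ (M : Fin n → Fin n → ℤ) (L : Fin n → Fin n → ℕ), (∀ i j, (p : ℝ) ^ δ ≤ L i j ∧ L i j ≤ p) →
        (p : ℝ) ^ ((n : ℝ) ^ 2 - n + δ) ≤ ∏ i, ∏ j, (L i j : ℝ) →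
      (p : ℝ) ^ (-δ) * ((∏ i, ∏ j, (L i j : ℝ)) / p) ≤
        (Set.ncard {Z : Matrix (Fin n) (Fin n) ℤ |
          GoodMatrix E κ δ p M L Z ∧ ((Z.det : ℤ) : ZMod p) = d} : ℝ)) ∧
    (2 ≤ n → ∃ κ : ℝ, 0 < κ ∧ ∃ p₀ : ℕ, ∀ (p : ℕ) [Fact p.Prime], p₀ ≤ p →
      ∀ (M : Fin n → Fin n → ℤ) (L : Fin n → Fin n → ℕ), (∀ i j, (p : ℝ) ^ δ ≤ L i j ∧ L i j ≤ p) →
        (p : ℝ) ^ ((n : ℝ) ^ 2 - n + 1 + δ) ≤ ∏ i, ∏ j, (L i j : ℝ) →
      (p : ℝ) ^ (-δ) * ((∏ i, ∏ j, (L i j : ℝ)) / p) ≤
        (Set.ncard {Z : Matrix (Fin n) (Fin n) ℤ |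
          GoodMatrix E κ δ p M L Z ∧ ((Z.det : ℤ) : ZMod p) = 0} : ℝ)) := by
  constructor
  · intro hn
    obtain ⟨m, rfl⟩ : ∃ m, n = m + 3 := ⟨n - 3, by omega⟩
    obtain ⟨κ, hκ, p₀, h⟩ := Run7.h914.rec_mat m E δ hδ hδ1
    refine ⟨κ, hκ, p₀, ?_⟩
    intro p _ hpp d hd M L hL hV
    have hp : p.Prime := Fact.out
    apply transfer
    rw [← vol hp.pos]
    refine h p hpp d hd (fun q => M q.1 q.2) (fun q => L q.1 q.2) (fun q => hL q.1 q.2) ?_
    rw [Fintype.prod_prod_type]
    exact hV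
  · intro hn
    obtain ⟨m, rfl⟩ : ∃ m, n = m + 1 := ⟨n - 1, by omega⟩
    obtain ⟨κ, hκ, p₀, h⟩ := Run7.h914.rec_sing m E δ hδ hδ1
    refine ⟨κ, hκ, p₀, ?_⟩
    intro p _ hpp M L hL hV
    have hp : p.Prime := Fact.out
    apply transfer
    rw [← vol hp.pos]
    refine h p hpp (fun q => M q.1 q.2) (fun q => L q.1 q.2) (fun q => hL q.1 q.2) ?_
    rw [Fintype.prod_prod_type]
    exact hV

end Pool.Agent.Results.MP_028722_nt.MatricesOfGivenDeterminant
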