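import Pool.Agent.Run7.h914.QuadRec

set_option autoImplicit false

/-!
# Record prime gaps on quadrics modulo primes

Write `f(x) = log x (log₂ x)² log₄ x / (log₃ x)²` for the record size of the prime-free intervals.

Let `p` be a large prime and `Q` ANY nondegenerate quadratic form in `n` variables over the field with `p`
elements.

(1) Let `n ≥ 2`, let `c` be any point and `b ≠ 0`.  Every box `∏ (M_j, M_j + L_j]` with sides between `p ^ δ` and
`p` and of volume `V ≥ p ^ ((n + 1) / 2 + δ)` contains at least `p ^ (-δ) V / p` integer points `z` of the quadric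
`Q(z - c) ≡ b (mod p)` such that every integer within `κ f(p)` of `z₁ ^ (e₁) ⋯ z_n ^ (e_n)` has a prime factor
`≤ p ^ δ`, for all coprime exponents `e_j ≤ E` (for example at all the coordinates, at the products of two
coordinates, ...).  So all these numbers are in the middle of prime-free intervals of record length.

(2) The same for the graphs `z₀ ≡ Q(z₁, …, z_n) + l(z₁, …, z_n) + c (mod p)` of all quadratic polynomials with a
nondegenerate quadratic part, in the boxes of volume `V ≥ p ^ (n / 2 + 1 + δ)`.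

In each case about `V / p` integer points of the box are on the quadric.  For cubes the sides are
`p ^ (1 / 2 + 1 / (2 n) + δ)` in (1).

Proof.  The exponential sums over the quadric are `O(p ^ ((n - 1) / 2))`: complete the square; the modulus of the
Gauss sums of `Q` is `p ^ (n / 2)`, they do not change if the multiplier is multiplied by a square, and the mean over
these squares is a sum of the rational function `- t b s ^ 2 - a / (t s ^ 2)` of `s` (Kloosterman and Salié sums),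
for which we use our bound `exp_rat` for all rational functions.  Then the joint covering sieve of the starting
library `N39.RG`.
-/

namespace Pool.Agent.Results.MP_69be96_nt.Quadrics

/-- The record scale `f(x) = log x (log₂ x)² log₄ x / (log₃ x)²` (iterated natural logarithms). -/
noncomputable def f (x : ℝ) : ℝ :=
  Real.log x * (Real.log (Real.log x)) ^ 2 * Real.log (Real.log (Real.log (Real.log x))) /
    (Real.log (Real.log (Real.log x))) ^ 2

/-- Every integer within `κ f(p)` of `n` has a prime factor at most `p ^ δ`. -/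
def Centre (κ δ : ℝ) (p : ℕ) (n : ℤ) : Prop :=
  ∀ m : ℤ, |(m : ℝ) - n| ≤ κ * f p → ∃ l : ℕ, l.Prime ∧ (l : ℝ) ≤ (p : ℝ) ^ δ ∧ (l : ℤ) ∣ m

/-- `z` is in the box, and all its monomials with coprime exponents `≤ E` are centres. -/
def GoodPoint {r : ℕ} (E : ℕ) (κ δ : ℝ) (p : ℕ) (M : Fin r → ℤ) (L : Fin r → ℕ) (z : Fin r → ℤ) : Prop :=
  (∀ j, M j < z j ∧ z j ≤ M j + L j) ∧
    ∀ e : Fin r → ℕ, (∀ j, e j ≤ E) → Finset.univ.gcd e = 1 → Centre κ δ p (∏ j, z j ^ e j)

theorem qf_eq {p n : ℕ} [Fact p.Prime] (A : Matrix (Fin n) (Fin n) (ZMod p)) (x : Fin n → ZMod p) :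
    Run7.h914.qf A x = ∑ i, ∑ j, A i j * x i * x j := by
  unfold Run7.h914.qf
  simp only [dotProduct, Matrix.mulVec, Finset.mul_sum]
  refine Finset.sum_congr rfl fun i _ => Finset.sum_congr rfl fun j _ => ?_
  ring

theorem vol {p r : ℕ} (hp : 0 < p) (k : ℝ) (L : Fin r → ℕ) (hk : k = (r : ℝ) - 1) :
    (p : ℝ) ^ k * ∏ j, ((L j : ℝ) / p) = (∏ j, (L j : ℝ)) / p := by
  have hp0 : (0 : ℝ) < p := by exact_mod_cast hp
  rw [Finset.prod_div_distrib, Finset.prod_const, Finset.card_univ, Fintype.card_fin, hk, Real.rpow_sub hp0,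
    Real.rpow_one, Real.rpow_natCast]
  have : (p : ℝ) ^ r ≠ 0 := by positivity
  field_simp

/-- **Record prime gaps on quadrics modulo primes.** -/
theorem result (n E : ℕ) (δ : ℝ) (hδ : 0 < δ) (hδ1 : δ ≤ 1) :
    (2 ≤ n → ∃ κ : ℝ, 0 < κ ∧ ∃ p₀ : ℕ, ∀ (p : ℕ) [Fact p.Prime], p₀ ≤ p →
      ∀ A : Matrix (Fin n) (Fin n) (ZMod p), A.IsSymm → A.det ≠ 0 →
      ∀ (c : Fin n → ZMod p) (b : ZMod p), b ≠ 0 →
      ∀ (M : Fin n → ℤ) (L : Fin n → ℕ), (∀ j, (p : ℝ) ^ δ ≤ L j ∧ L j ≤ p) →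
        (p : ℝ) ^ (((n : ℝ) + 1) / 2 + δ) ≤ ∏ j, (L j : ℝ) →
      (p : ℝ) ^ (-δ) * ((∏ j, (L j : ℝ)) / p) ≤
        (Set.ncard {z : Fin n → ℤ | GoodPoint E κ δ p M L z ∧
          ∑ i, ∑ j, A i j * ((z i : ZMod p) - c i) * ((z j : ZMod p) - c j) = b} : ℝ)) ∧
    (∃ κ : ℝ, 0 < κ ∧ ∃ p₀ : ℕ, ∀ (p : ℕ) [Fact p.Prime], p₀ ≤ p →
      ∀ A : Matrix (Fin n) (Fin n) (ZMod p), A.IsSymm → A.det ≠ 0 →
      ∀ (l : Fin n → ZMod p) (c : ZMod p),
      ∀ (M : Fin (n + 1) → ℤ) (L : Fin (n + 1) → ℕ), (∀ j, (p : ℝ) ^ δ ≤ L j ∧ L j ≤ p) →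
        (p : ℝ) ^ ((n : ℝ) / 2 + 1 + δ) ≤ ∏ j, (L j : ℝ) →
      (p : ℝ) ^ (-δ) * ((∏ j, (L j : ℝ)) / p) ≤
        (Set.ncard {z : Fin (n + 1) → ℤ | GoodPoint E κ δ p M L z ∧
          (z 0 : ZMod p) = ∑ i, ∑ j, A i j * (z i.succ : ZMod p) * (z j.succ : ZMod p) +
            ∑ i, l i * (z i.succ : ZMod p) + c} : ℝ)) := by
  constructor
  · intro hn
    obtain ⟨κ, hκ, p₀, h⟩ := Run7.h914.rec_quad n E hn δ hδ hδ1
    refine ⟨κ, hκ, p₀, ?_⟩
    intro p _ hpp A hA hd c b hb M L hL hV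
    have hp : p.Prime := Fact.out
    have key := h p hpp A c b hA hd hb M L hL hV
    rw [vol hp.pos _ L rfl] at key
    refine key.trans ?_
    rw [Nat.cast_le]
    refine Set.ncard_le_ncard ?_ ?_
    · rintro z ⟨h1, h2, h3⟩
      refine ⟨⟨h1, fun e he hg m hm => h3 e he hg m ?_⟩, ?_⟩
      · push_cast at hm
        exact hm
      · rw [qf_eq] at h2
        exact h2
    · refine (Set.Finite.pi' (fun j => Set.finite_Ioc (M j) (M j + L j))).subset ?_
      intro z hz j
      exact hz.1.1 j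
  · obtain ⟨κ, hκ, p₀, h⟩ := Run7.h914.rec_parab n E δ hδ hδ1
    refine ⟨κ, hκ, p₀, ?_⟩
    intro p _ hpp A hA hd l c M L hL hV
    have hp : p.Prime := Fact.out
    have key := h p hpp A l c hA hd M L hL hV
    rw [vol hp.pos _ L (by push_cast; ring)] at key
    refine key.trans ?_
    rw [Nat.cast_le]
    refine Set.ncard_le_ncard ?_ ?_
    · rintro z ⟨h1, h2, h3⟩
      refine ⟨⟨h1, fun e he hg m hm => h3 e he hg m ?_⟩, ?_⟩
      · push_cast at hm
        exact hm
      · rw [qf_eq] at h2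
        exact h2
    · refine (Set.Finite.pi' (fun j => Set.finite_Ioc (M j) (M j + L j))).subset ?_
      intro z hz j
      exact hz.1.1 j

end Pool.Agent.Results.MP_69be96_nt.Quadrics
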